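import Pool.Agent.Helper43.RK.StI

/-!
# Project RK, module INU: numbers, orders of two, greatest common divisors
-/

set_option autoImplicit false

open Pool.Agent.Helper43.RK

namespace Pool.Agent.Helper53.RK

theorem ord_aux (o m w e : ℕ) (hw : w % 2 = 1) (h1 : o ∣ 2 * m * 2 ^ e) (h2 : o ∣ 2 * w) :
    o ∣ 2 * m := by
  have h3 : o ∣ 2 * Nat.gcd (m * 2 ^ e) w := by
    rw [← Nat.gcd_mul_left]
    exact Nat.dvd_gcd (by rw [← mul_assoc]; exact h1) h2
  have h4 : Nat.Coprime (Nat.gcd (m * 2 ^ e) w) (2 ^ e) := by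
    apply Nat.Coprime.pow_right
    have h5 : Nat.Coprime w 2 := (Nat.odd_iff.mpr hw).coprime_two_right
    exact Nat.Coprime.coprime_dvd_left (Nat.gcd_dvd_right _ _) h5
  have h5 : Nat.gcd (m * 2 ^ e) w ∣ m := h4.dvd_of_dvd_mul_right (Nat.gcd_dvd_left _ _)
  exact h3.trans (mul_dvd_mul_left 2 h5)

theorem cop_aux (h k e : ℕ) (hh : h % 2 = 1) (he : 3 ≤ e) (hk : k = 2 ^ e - 1) :
    Nat.Coprime ((2 ^ k - 1) * (2 ^ (h + k - 1) - 1) * (2 ^ (k * (h + k - 1)) + 1))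
      (∑ i ∈ Finset.range (k + 1), (2 ^ (k - 1)) ^ i) := by
  have h8 : 2 ^ 3 ≤ 2 ^ e := Nat.pow_le_pow_right (by norm_num) he
  have hk7 : 7 ≤ k := by omega
  have hk1 : k + 1 = 2 ^ e := by omega
  have hkodd : k % 2 = 1 := by
    have h9 : 2 ∣ 2 ^ e := dvd_pow_self 2 (by omega)
    omega
  by_contra hne
  obtain ⟨π, hπ, hB, hC⟩ := Nat.Prime.not_coprime_iff_dvd.mp hne
  have := Fact.mk hπ
  have hC' : (∑ i ∈ Finset.range (k + 1), ((2 : ZMod π) ^ (k - 1)) ^ i) = 0 := by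
    have h1 := (ZMod.natCast_eq_zero_iff _ π).mpr hC
    push_cast at h1
    exact h1
  have hsq : (2 : ZMod π) ^ ((k - 1) * (k + 1)) = 1 := by
    have h1 := mul_geom_sum ((2 : ZMod π) ^ (k - 1)) (k + 1)
    rw [hC', mul_zero] at h1
    rw [pow_mul]
    exact sub_eq_zero.mp h1.symm
  have hdiv : orderOf (2 : ZMod π) ∣ (k - 1) * (k + 1) := orderOf_dvd_of_pow_eq_one hsq
  have hπ2 : (2 : ZMod π) ≠ 0 := by
    intro h0
    have hpos : (k - 1) * (k + 1) ≠ 0 := by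
      apply Nat.mul_ne_zero <;> omega
    rw [h0, zero_pow hpos] at hsq
    exact zero_ne_one hsq
  have hck : Nat.Coprime ((k - 1) * (k + 1)) k := by
    obtain ⟨n, rfl⟩ : ∃ n, k = n + 1 := ⟨k - 1, by omega⟩
    apply Nat.Coprime.mul_left
    · simp
    · simp
  have hcop : Nat.Coprime (orderOf (2 : ZMod π)) k := Nat.Coprime.coprime_dvd_left hdiv hck
  have hcast : ∀ n : ℕ, π ∣ 2 ^ n - 1 → (2 : ZMod π) ^ n = 1 := by
    intro n hn
    have h1 := (ZMod.natCast_eq_zero_iff _ π).mpr hn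
    rw [Nat.cast_sub Nat.one_le_two_pow] at h1
    push_cast at h1
    exact sub_eq_zero.mp h1
  obtain ⟨m, hm⟩ : ∃ m, k - 1 = 2 * m := ⟨(k - 1) / 2, by omega⟩
  have hfin : orderOf (2 : ZMod π) ∣ 2 * (h + k - 1) → False := by
    intro hd
    have h1 : orderOf (2 : ZMod π) ∣ 2 * m := by
      apply ord_aux _ m (h + k - 1) e (by omega) _ hd
      rw [← hm, ← hk1]
      exact hdiv
    rw [← hm] at h1
    have h2 : (2 : ZMod π) ^ (k - 1) = 1 := orderOf_dvd_iff_pow_eq_one.mp h1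
    rw [h2] at hC'
    simp only [one_pow, Finset.sum_const, Finset.card_range, nsmul_eq_mul, mul_one] at hC'
    rw [hk1] at hC'
    push_cast at hC'
    exact pow_ne_zero e hπ2 hC'
  rcases (Nat.Prime.dvd_mul hπ).mp hB with h1 | h1
  · rcases (Nat.Prime.dvd_mul hπ).mp h1 with h2 | h2
    · have h3 : orderOf (2 : ZMod π) ∣ k := orderOf_dvd_of_pow_eq_one (hcast k h2)
      have h4 : orderOf (2 : ZMod π) = 1 := Nat.Coprime.eq_one_of_dvd hcop h3
      rw [orderOf_eq_one_iff] at h4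
      have h5 : (1 : ZMod π) = 0 := by linear_combination h4
      exact one_ne_zero h5
    · exact hfin ((orderOf_dvd_of_pow_eq_one (hcast _ h2)).mul_left 2)
  · have h2 : (2 : ZMod π) ^ (k * (h + k - 1)) = -1 := by
      have h3 := (ZMod.natCast_eq_zero_iff _ π).mpr h1
      push_cast at h3
      linear_combination h3
    have h3 : (2 : ZMod π) ^ (2 * (h + k - 1) * k) = 1 := by
      have h4 : 2 * (h + k - 1) * k = k * (h + k - 1) * 2 := by ring
      rw [h4, pow_mul, h2]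
      ring
    exact hfin (hcop.dvd_of_dvd_mul_right (orderOf_dvd_of_pow_eq_one h3))

theorem hINU : StINU := by
  intro G _ t h k e hh he hk ht1 ht2
  have hcop := cop_aux h k e hh he hk
  have h8 : 2 ^ 3 ≤ 2 ^ e := Nat.pow_le_pow_right (by norm_num) he
  have hk7 : 7 ≤ k := by omega
  have hC : (2 ^ (k - 1) - 1) * (∑ i ∈ Finset.range (k + 1), (2 ^ (k - 1)) ^ i) =
      2 ^ (k * k - 1) - 1 := by
    have h1 : 1 ≤ 2 ^ (k - 1) := Nat.one_le_two_pow
    have h2 : 1 ≤ 2 ^ (k * k - 1) := Nat.one_le_two_pow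
    have h3 := mul_geom_sum ((2 : ℤ) ^ (k - 1)) (k + 1)
    have h4 : (k - 1) * (k + 1) = k * k - 1 := by
      obtain ⟨n, rfl⟩ : ∃ n, k = n + 1 := ⟨k - 1, by omega⟩
      rw [Nat.add_sub_cancel]
      have : (n + 1) * (n + 1) = n * (n + 1 + 1) + 1 := by ring
      rw [this, Nat.add_sub_cancel]
    rw [← pow_mul, h4] at h3
    have h5 : ((2 ^ (k - 1) - 1 : ℕ) : ℤ) = 2 ^ (k - 1) - 1 := by
      rw [Nat.cast_sub h1]; push_cast; ring
    have h6 : ((2 ^ (k * k - 1) - 1 : ℕ) : ℤ) = 2 ^ (k * k - 1) - 1 := by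
      rw [Nat.cast_sub h2]; push_cast; ring
    have h7 : (((2 ^ (k - 1) - 1) * (∑ i ∈ Finset.range (k + 1), (2 ^ (k - 1)) ^ i) : ℕ) : ℤ) =
        ((2 ^ (k * k - 1) - 1 : ℕ) : ℤ) := by
      rw [Nat.cast_mul, h5, h6]
      push_cast
      exact h3
    exact_mod_cast h7
  have hd1 := orderOf_dvd_of_pow_eq_one ht1
  have hd2 := orderOf_dvd_of_pow_eq_one ht2
  rw [← hC] at hd2
  have hd3 := Nat.dvd_gcd hd1 hd2
  rw [Nat.gcd_mul_left, hcop.gcd_eq_one, mul_one] at hd3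
  exact orderOf_dvd_iff_pow_eq_one.mp hd3

end Pool.Agent.Helper53.RK
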