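import Pool.Agent.Helper43.RK.St

/-!
# Project RK, module RX: the elements `X l` and their action
-/

set_option autoImplicit false

open Pool.Agent.Helper43.RK

namespace Pool.Agent.Helper53.RK

theorem hRX : StRX := by
  intro R _ G _ D hn hG hC l hl
  have hbd : D.bar ((D.y : R) * (D.yb : R)) = (D.y : R) * (D.yb : R) := by
    rw [map_mul, D.bary, D.bar_yb, mul_comm]
  have hinv : ((D.y⁻¹ : Rˣ) : R) * (D.y : R) = 1 := Units.inv_mul _
  have hinv2 : (D.y : R) * ((D.y⁻¹ : Rˣ) : R) = 1 := Units.mul_inv _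
  have htt : ∀ x : R, D.tau x * D.tau x = 1 := by
    intro x
    calc D.tau x * D.tau x = D.n * D.a x * (D.n * D.n) * D.a x * D.n := by
          simp only [Dt.tau]; group
      _ = D.n * (D.a x * D.a x) * D.n := by rw [hn]; group
      _ = 1 := by rw [D.aa, mul_one, hn]
  have hta : ∀ x x' : R, D.tau (x + x') = D.tau x * D.tau x' := by
    intro x x'
    calc D.tau (x + x') = D.n * D.a x * 1 * D.a x' * D.n := by
          simp only [Dt.tau]; rw [D.a_add]; group
      _ = D.tau x * D.tau x' := by rw [← hn]; simp only [Dt.tau]; group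
  have hL : D.bar ((D.y : R) * (D.yb : R) * l) = (D.y : R) * (D.yb : R) * l := by
    rw [map_mul, hbd, hl]
  have hgd := hG _ hL
  refine ⟨?_, ?_, ?_, ?_, ?_⟩
  · calc D.X l * D.X l = D.Y⁻¹ * (D.tau ((D.y : R) * (D.yb : R) * l) *
          D.tau ((D.y : R) * (D.yb : R) * l)) * D.Y := by simp only [Dt.X]; group
      _ = 1 := by rw [htt]; group
  · intro m
    simp only [Dt.X]
    rw [mul_add, hta]
    group
  · intro r
    calc D.X l * D.a r * D.X l = D.Y⁻¹ * (D.tau ((D.y : R) * (D.yb : R) * l) *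
          (D.Y * D.a r * D.Y⁻¹) * D.tau ((D.y : R) * (D.yb : R) * l)) * D.Y := by
          simp only [Dt.X]; group
      _ = _ := by
          rw [D.aYinv, hgd.ta, D.aY]
          congr 1
          linear_combination r * hinv2
  · intro r
    calc D.X l * D.b r * D.X l = D.Y⁻¹ * (D.tau ((D.y : R) * (D.yb : R) * l) *
          (D.Y * D.b r * D.Y⁻¹) * D.tau ((D.y : R) * (D.yb : R) * l)) * D.Y := by
          simp only [Dt.X]; group
      _ = _ := by
          rw [D.bYinv, hgd.tb, D.bY]
          congr 1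
          linear_combination (r + (D.yb : R) * l * ((D.y : R) * r + D.bar ((D.y : R) * r))) * hinv
  · intro m hm
    have h1 : D.bar (l * ((D.y : R) * (D.yb : R))) = l * ((D.y : R) * (D.yb : R)) := by
      rw [map_mul, hbd, hl]
    have h2 := hC _ m h1 hm
    have h3 : D.a (m * (D.y : R)) = D.Y⁻¹ * D.a m * D.Y := by
      rw [D.aY, mul_comm]
    have h4 : D.b (l * (D.yb : R)) = D.Y⁻¹ * D.b (l * ((D.y : R) * (D.yb : R))) * D.Y := by
      rw [D.bY]
      congr 1
      linear_combination -(l * (D.yb : R)) * hinv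
    have h5 : l * ((D.y : R) * (D.yb : R)) * m = (D.y : R) * (D.yb : R) * (l * m) := by ring
    rw [h3, h4]
    calc D.Y⁻¹ * D.a m * D.Y * (D.Y⁻¹ * D.b (l * ((D.y : R) * (D.yb : R))) * D.Y) *
          (D.Y⁻¹ * D.a m * D.Y) * (D.Y⁻¹ * D.b (l * ((D.y : R) * (D.yb : R))) * D.Y) =
          D.Y⁻¹ * (D.a m * D.b (l * ((D.y : R) * (D.yb : R))) * D.a m *
            D.b (l * ((D.y : R) * (D.yb : R)))) * D.Y := by group
      _ = D.X (l * m) := by
          rw [h2, h5]
          simp only [Dt.X]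

end Pool.Agent.Helper53.RK
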